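import Mathlib

set_option autoImplicit false

namespace Pool.Agent.Results.MP_52157e_lc.NonGalvinFilter

open Cardinal Order Set

universe u

/-- A filter `F` over the cardinal `κ` (whose points are the elements of the canonical
well-order `κ.ord.ToType` of order type `κ`) has the Galvin property: every family of `κ⁺`
members of `F` has a subfamily of size `κ` whose intersection belongs to `F`. -/
def IsGalvin (κ : Cardinal.{u}) (F : Filter κ.ord.ToType) : Prop :=
  ∀ A : (Order.succ κ).ord.ToType → Set κ.ord.ToType, (∀ i, A i ∈ F) →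
    ∃ I : Set (Order.succ κ).ord.ToType, #I = κ ∧ (⋂ i ∈ I, A i) ∈ F

section General

variable {α : Type u} [LinearOrder α] [WellFoundedLT α]

theorem exists_lub {s : Set α} (hs : BddAbove s) : ∃ x, IsLUB s x := by
  obtain ⟨m, hm, hmin⟩ := WellFounded.has_min (wellFounded_lt (α := α)) (upperBounds s) hs
  exact ⟨m, hm, fun y hy => not_lt.1 (hmin y hy)⟩

omit [WellFoundedLT α] in
theorem bdd_of_lt {s : Set α} (hs : #s < cof α) : BddAbove s :=
  .of_not_isCofinal fun h => (cof_le h).not_gt hs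

omit [WellFoundedLT α] in
theorem bdd_range_nat (hα : ℵ₀ < cof α) (f : ℕ → α) : BddAbove (range f) := by
  apply bdd_of_lt
  refine lt_of_le_of_lt ?_ hα
  exact (Set.countable_range f).le_aleph0

omit [WellFoundedLT α] in
theorem noMax (hα : ℵ₀ < cof α) (a : α) : ∃ b, a < b := by
  by_contra h
  push Not at h
  have hc : IsCofinal ({a} : Set α) := fun b => ⟨a, rfl, h b⟩
  have := cof_le hc
  rw [mk_singleton] at this
  exact absurd (this.trans_lt one_lt_aleph0) (not_lt.2 hα.le)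

/-- Fodor's pressing down lemma. -/
theorem fodor (hα : ℵ₀ < cof α) (hreg : cof α = #α) (hI : ∀ a : α, #(Iic a) < #α)
    {S : Set α} (hS : IsStationary S) (g : α → α)
    (hg : ∀ a ∈ S, g a < a) : ∃ γ, IsStationary {a | a ∈ S ∧ g a = γ} := by
  by_contra hcon
  push Not at hcon
  simp_rw [not_isStationary_iff] at hcon
  choose C hC hdis using hcon
  -- the diagonal intersection
  let D : Set α := {a | ∀ γ < a, a ∈ C γ}
  have hD : IsClub D := by
    constructor
    · intro t htD htne _ x hx γ hγ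
      obtain ⟨y, hyt, hγy⟩ := (lt_isLUB_iff hx).1 hγ
      have hsub : {z | z ∈ t ∧ y ≤ z} ⊆ C γ := fun z hz => htD hz.1 γ (hγy.trans_le hz.2)
      refine (hC γ).isLUB_mem hsub ⟨y, hyt, le_rfl⟩ ⟨fun z hz => hx.1 hz.1, fun b hb => hx.2 ?_⟩
      intro z hz
      rcases le_total y z with h | h
      · exact hb ⟨hz, h⟩
      · exact h.trans (hb ⟨hyt, le_rfl⟩)
    · intro a₀
      have hstep : ∀ a : α, ∃ b, a < b ∧ ∀ γ ≤ a, b ∈ C γ := by
        intro a
        have hclub : IsClub (⋂ γ : Iic a, C γ) := by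
          apply IsClub.iInter hα.ne'
          · simp only [Cardinal.lift_id]
            rw [hreg]; exact hI a
          · intro i; exact hC i
        obtain ⟨c, hc⟩ := noMax hα a
        obtain ⟨b, hb, hcb⟩ := hclub.isCofinal c
        refine ⟨b, hc.trans_le hcb, fun γ hγ => ?_⟩
        exact Set.mem_iInter.1 hb ⟨γ, hγ⟩
      choose nx hnx1 hnx2 using hstep
      let s : ℕ → α := fun n => nx^[n] a₀
      have hs1 : ∀ n, s (n + 1) = nx (s n) := fun n => Function.iterate_succ_apply' _ _ _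
      have hmono : StrictMono s := strictMono_nat_of_lt_succ fun n => by
        rw [hs1]; exact hnx1 _
      obtain ⟨x, hx⟩ := exists_lub (bdd_range_nat hα s)
      refine ⟨x, ?_, hx.1 ⟨0, rfl⟩⟩
      intro γ hγ
      obtain ⟨y, ⟨n, rfl⟩, hγn⟩ := (lt_isLUB_iff hx).1 hγ
      have hsub : (range fun m => s (n + 1 + m)) ⊆ C γ := by
        rintro _ ⟨m, rfl⟩
        have h : s (n + 1 + m) = nx (s (n + m)) := by
          rw [← hs1]; congr 1; omega
        change s (n + 1 + m) ∈ C γ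
        rw [h]
        exact hnx2 _ γ (hγn.le.trans (hmono.monotone (Nat.le_add_right _ _)))
      refine (hC γ).isLUB_mem hsub (range_nonempty _) ⟨?_, fun b hb => hx.2 ?_⟩
      · rintro _ ⟨m, rfl⟩
        exact hx.1 ⟨_, rfl⟩
      · rintro _ ⟨m, rfl⟩
        exact (hmono.monotone (by omega)).trans (hb ⟨m, rfl⟩)
  obtain ⟨a, haS, haD⟩ := hS hD
  have h1 : a ∈ C (g a) := haD _ (hg a haS)
  exact (Set.disjoint_left.1 (hdis (g a))) ⟨haS, rfl⟩ h1

/-- The set of limits of cofinality `ω`. -/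
def SOmega (α : Type u) [LinearOrder α] : Set α :=
  {a | ∃ f : ℕ → α, (∀ n, f n < a) ∧ ∀ b < a, ∃ n, b < f n}

theorem stationary_SOmega (hα : ℵ₀ < cof α) : IsStationary (SOmega α) := by
  intro C hC
  have hne : Nonempty α := by
    by_contra h
    rw [not_nonempty_iff] at h
    rw [cof_eq_zero] at hα
    exact absurd hα (not_lt.2 zero_le)
  obtain ⟨a₀⟩ := hne
  have hstep : ∀ a : α, ∃ b, a < b ∧ b ∈ C := by
    intro a
    obtain ⟨c, hc⟩ := noMax hα a
    obtain ⟨b, hb, hcb⟩ := hC.isCofinal c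
    exact ⟨b, hc.trans_le hcb, hb⟩
  choose nx hnx1 hnx2 using hstep
  let s : ℕ → α := fun n => nx^[n] a₀
  have hs1 : ∀ n, s (n + 1) = nx (s n) := fun n => Function.iterate_succ_apply' _ _ _
  have hmono : StrictMono s := strictMono_nat_of_lt_succ fun n => by
    rw [hs1]; exact hnx1 _
  obtain ⟨x, hx⟩ := exists_lub (bdd_range_nat hα s)
  refine ⟨x, ⟨s, fun n => ?_, fun b hb => ?_⟩, ?_⟩
  · exact (hmono (Nat.lt_succ_self n)).trans_le (hx.1 ⟨_, rfl⟩)
  · obtain ⟨y, ⟨n, rfl⟩, h⟩ := (lt_isLUB_iff hx).1 hb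
    exact ⟨n, h⟩
  · have hsub : (range fun m => s (m + 1)) ⊆ C := by
      rintro _ ⟨m, rfl⟩
      simp only [hs1]
      exact hnx2 _
    refine hC.isLUB_mem hsub (range_nonempty _) ⟨?_, fun b hb => hx.2 ?_⟩
    · rintro _ ⟨m, rfl⟩
      exact hx.1 ⟨_, rfl⟩
    · rintro _ ⟨m, rfl⟩
      exact (hmono (Nat.lt_succ_self m)).le.trans (hb ⟨m, rfl⟩)

/-- A regular uncountable cardinal has `κ` many disjoint stationary sets. -/
theorem exists_disjoint_stationary (hα : ℵ₀ < cof α) (hreg : cof α = #α)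
    (hI : ∀ a : α, #(Iic a) < #α) :
    ∃ T : α → Set α, (∀ γ, IsStationary (T γ)) ∧ ∀ γ δ a, a ∈ T γ → a ∈ T δ → γ = δ := by
  classical
  have hS := stationary_SOmega hα
  have hch : ∀ a : α, ∃ f : ℕ → α, a ∈ SOmega α → ((∀ n, f n < a) ∧ ∀ b < a, ∃ n, b < f n) := by
    intro a
    by_cases h : a ∈ SOmega α
    · obtain ⟨f, hf⟩ := h
      exact ⟨f, fun _ => hf⟩
    · exact ⟨fun _ => a, fun h' => absurd h' h⟩
  choose f hf using hch
  -- some `n` works
  have hn : ∃ n, ∀ η, IsStationary {a | a ∈ SOmega α ∧ η ≤ f a n} := by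
    by_contra hcon
    push Not at hcon
    choose η hη using hcon
    obtain ⟨x, hx⟩ := exists_lub (bdd_range_nat hα η)
    have h1 : ¬ IsStationary (⋃ n, {a | a ∈ SOmega α ∧ η n ≤ f a n}) := by
      rw [isStationary_iUnion_iff_of_countable hα.ne']
      push Not
      exact hη
    apply h1
    -- `SOmega ∩ Ioi x` is stationary
    have h2 : IsClub (Ioi x) := by
      constructor
      · intro t ht htne _ y hy
        obtain ⟨z, hz⟩ := htne
        exact (ht hz).trans_le (hy.1 hz)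
      · intro a
        obtain ⟨c, hc⟩ := noMax hα (max a x)
        exact ⟨c, (le_max_right _ _).trans_lt hc, (le_max_left _ _).trans hc.le⟩
    intro C hC
    obtain ⟨a, haS, haC, hax⟩ := hS (hC.inter hα.ne' h2)
    obtain ⟨n, hn⟩ := (hf a haS).2 x hax
    refine ⟨a, mem_iUnion.2 ⟨n, haS, (hx.1 ⟨n, rfl⟩).trans hn.le⟩, haC⟩
  obtain ⟨n, hn⟩ := hn
  have hcof : ∀ η, ∃ γ, η ≤ γ ∧ IsStationary {a | a ∈ SOmega α ∧ f a n = γ} := by
    intro η
    obtain ⟨γ, hγ⟩ := fodor hα hreg hI (hn η) (fun a => f a n) (fun a ha => (hf a ha.1).1 n)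
    refine ⟨γ, ?_, hγ.mono ?_⟩
    · obtain ⟨a, ⟨_, h1⟩, h2⟩ := hγ.nonempty
      exact h2 ▸ h1
    · rintro a ⟨⟨h1, _⟩, h2⟩
      exact ⟨h1, h2⟩
  let Γ : Set α := {γ | IsStationary {a | a ∈ SOmega α ∧ f a n = γ}}
  have hΓ : IsCofinal Γ := fun η => by
    obtain ⟨γ, h1, h2⟩ := hcof η
    exact ⟨γ, h2, h1⟩
  have hΓc : #α ≤ #Γ := hreg ▸ cof_le hΓ
  obtain ⟨e⟩ := hΓc
  refine ⟨fun γ => {a | a ∈ SOmega α ∧ f a n = e γ}, fun γ => (e γ).2, ?_⟩
  intro γ δ a h1 h2
  exact e.injective (Subtype.ext (h1.2.symm.trans h2.2))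

omit [WellFoundedLT α] in
/-- There are `κ⁺` pairwise eventually different functions `κ → κ`. -/
theorem exists_eventually_different (hinf : ∀ a : α, ∃ b, a < b)
    (hI : ∀ a : α, #(Iic a) < #α) :
    ∃ E : Set (α → α), #α < #E ∧ ∀ e ∈ E, ∀ e' ∈ E, e ≠ e' → #{ν | e ν = e' ν} < #α := by
  classical
  let P : Set (Set (α → α)) :=
    {E | ∀ e ∈ E, ∀ e' ∈ E, e ≠ e' → #{ν | e ν = e' ν} < #α}
  obtain ⟨E, hE⟩ : ∃ E, Maximal (· ∈ P) E := by
    apply zorn_subset
    intro c hc hch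
    refine ⟨⋃₀ c, ?_, fun s hs => subset_sUnion_of_mem hs⟩
    rintro e ⟨s, hs, hes⟩ e' ⟨s', hs', hes'⟩ hne
    rcases hch.total hs hs' with h | h
    · exact hc hs' e (h hes) e' hes' hne
    · exact hc hs e hes e' (h hes') hne
  refine ⟨E, ?_, hE.1⟩
  by_contra hcon
  push Not at hcon
  -- the set is nonempty
  have hEne : E.Nonempty := by
    by_contra hEe
    rw [not_nonempty_iff_eq_empty] at hEe
    have h1 : ({fun x => x} : Set (α → α)) ∈ P := by
      intro e he e' he' hne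
      rw [mem_singleton_iff] at he he'
      exact absurd (he.trans he'.symm) hne
    have := hE.2 h1 (by rw [hEe]; exact empty_subset _)
    rw [hEe] at this
    exact (this (mem_singleton _)).elim
  obtain ⟨j⟩ := hcon
  have : Nonempty E := hEne.to_subtype
  let s : α → E := Function.invFun j
  have hs : Function.Surjective s := Function.invFun_surjective j.injective
  have hdiag : ∀ ν : α, ∃ y : α, ∀ ξ ≤ ν, (s ξ : α → α) ν ≠ y := by
    intro ν
    by_contra h
    push Not at h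
    have hsurj : Function.Surjective (fun ξ : Iic ν => (s ξ : α → α) ν) := by
      intro y
      obtain ⟨ξ, h1, h2⟩ := h y
      exact ⟨⟨ξ, h1⟩, h2⟩
    exact absurd (mk_le_of_surjective hsurj) (not_le.2 (hI ν))
  choose d hd using hdiag
  have hlt : ∀ e ∈ E, ∃ ξ, {ν | d ν = e ν} ⊆ Iic ξ := by
    intro e he
    obtain ⟨ξ, hξ⟩ := hs ⟨e, he⟩
    refine ⟨ξ, fun ν hν => ?_⟩
    by_contra hlt
    rw [mem_Iic, not_le] at hlt
    apply hd ν ξ hlt.le
    rw [hξ]
    exact hν.symm
  have hdE : d ∉ E := by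
    intro h
    obtain ⟨ξ, hξ⟩ := hlt d h
    obtain ⟨b, hb⟩ := hinf ξ
    exact absurd (hξ (show b ∈ {ν | d ν = d ν} from rfl)) (not_le.2 hb)
  have hcard : ∀ e ∈ E, #{ν | d ν = e ν} < #α := by
    intro e he
    obtain ⟨ξ, hξ⟩ := hlt e he
    exact (mk_le_mk_of_subset hξ).trans_lt (hI ξ)
  have hP : insert d E ∈ P := by
    rintro e (rfl | he) e' (rfl | he') hne
    · exact absurd rfl hne
    · exact hcard e' he'
    · have := hcard e he
      simpa only [eq_comm] using this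
    · exact hE.1 e he e' he' hne
  exact hdE (hE.2 hP (subset_insert _ _) (mem_insert _ _))

end General

/-- For every regular uncountable cardinal `κ` there is a proper `κ`-complete filter over `κ`
which contains all club subsets of `κ` and does not have the Galvin property.

Proof idea: split a stationary set into `κ` many disjoint stationary sets `T_x`, indexed by
`x ∈ κ × κ`, take `κ⁺` many pairwise eventually different functions `e_i : κ → κ` and put
`S_i = ⋃_ν T_(ν, e_i ν)`.  No `S_i` is covered, modulo a club, by fewer than `κ` of the other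
`S_j`, so the filter generated by the clubs and the complements of the `S_i` is as wanted. -/
theorem result (κ : Cardinal.{u}) (hreg : κ.IsRegular) (hunc : ℵ₀ < κ) :
    ∃ F : Filter κ.ord.ToType, F.NeBot ∧ CardinalInterFilter F κ ∧
      (∀ C : Set κ.ord.ToType, IsClub C → C ∈ F) ∧ ¬ IsGalvin κ F := by
  classical
  have hcardα : #κ.ord.ToType = κ := by simp
  have hcofα : cof κ.ord.ToType = κ := by
    rw [Ordinal.cof_toType, hreg.cof_ord]
  have hα : ℵ₀ < cof κ.ord.ToType := by rw [hcofα]; exact hunc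
  have hregα : cof κ.ord.ToType = #κ.ord.ToType := by rw [hcofα, hcardα]
  have hne : Nonempty κ.ord.ToType := by
    rw [← mk_ne_zero_iff, hcardα]
    exact hreg.ne_zero
  have hI : ∀ a : κ.ord.ToType, #(Iic a) < #κ.ord.ToType := by
    intro a
    obtain ⟨b, hb⟩ := noMax hα a
    have h1 : #(Iio b) < κ := by
      simpa [hcardα] using mk_Iio_lt b (by simp)
    rw [hcardα]
    exact (mk_le_mk_of_subset (fun x hx => lt_of_le_of_lt hx hb)).trans_lt h1
  obtain ⟨T, hTst, hTdis⟩ := exists_disjoint_stationary hα hregα hI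
  obtain ⟨E, hEcard, hE⟩ := exists_eventually_different (noMax hα) hI
  -- a coding of pairs
  obtain ⟨p⟩ : Nonempty (κ.ord.ToType × κ.ord.ToType ↪ κ.ord.ToType) := by
    rw [← Cardinal.le_def, mk_prod, hcardα]
    simp [mul_eq_self hreg.aleph0_le]
  have hι : #(Order.succ κ).ord.ToType = Order.succ κ := by simp
  obtain ⟨e⟩ : Nonempty ((Order.succ κ).ord.ToType ↪ E) := by
    rw [← Cardinal.le_def, hι]
    apply Order.succ_le_of_lt
    rw [hcardα] at hEcard
    exact hEcard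
  let S : (Order.succ κ).ord.ToType → Set κ.ord.ToType :=
    fun i => {a | ∃ ν, a ∈ T (p (ν, (e i : κ.ord.ToType → κ.ord.ToType) ν))}
  -- no `S i` is covered, modulo a non-stationary set, by fewer than `κ` of the others
  have key : ∀ J : Set (Order.succ κ).ord.ToType, #J < κ → ∀ i ∉ J, ∀ C : Set κ.ord.ToType,
      IsClub C → ∃ a ∈ C, a ∈ S i ∧ ∀ j ∈ J, a ∉ S j := by
    intro J hJ i hi C hC
    have h1 : #(⋃ j ∈ J, {ν | (e i : κ.ord.ToType → κ.ord.ToType) ν =
        (e j : κ.ord.ToType → κ.ord.ToType) ν} : Set κ.ord.ToType) < κ := by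
      refine (card_biUnion_lt_iff_forall_of_isRegular hreg hJ).2 fun j hj => ?_
      have hij : (e i : κ.ord.ToType → κ.ord.ToType) ≠ (e j : κ.ord.ToType → κ.ord.ToType) := by
        intro h
        exact hi (e.injective (Subtype.ext h) ▸ hj)
      have := hE _ (e i).2 _ (e j).2 hij
      rwa [hcardα] at this
    obtain ⟨ν, hν⟩ : ∃ ν, ν ∉ (⋃ j ∈ J, {ν | (e i : κ.ord.ToType → κ.ord.ToType) ν =
        (e j : κ.ord.ToType → κ.ord.ToType) ν} : Set κ.ord.ToType) := by
      by_contra hcon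
      push Not at hcon
      rw [eq_univ_of_forall hcon, mk_univ, hcardα] at h1
      exact lt_irrefl _ h1
    obtain ⟨a, haT, haC⟩ := hTst (p (ν, (e i : κ.ord.ToType → κ.ord.ToType) ν)) hC
    refine ⟨a, haC, ⟨ν, haT⟩, ?_⟩
    rintro j hj ⟨ν', hν'⟩
    have h2 := p.injective (hTdis _ _ a haT hν')
    rw [Prod.mk.injEq] at h2
    obtain ⟨rfl, h3⟩ := h2
    exact hν (mem_biUnion hj h3)
  have hexists : ∀ J : Set (Order.succ κ).ord.ToType, #J < κ → ∃ i, i ∉ J := by
    intro J hJ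
    by_contra hcon
    push Not at hcon
    rw [eq_univ_of_forall hcon, mk_univ, hι] at hJ
    exact absurd hJ (not_lt.2 (Order.le_succ κ))
  -- the filter
  let F : Filter κ.ord.ToType :=
    { sets := {X | ∃ J : Set (Order.succ κ).ord.ToType, #J < κ ∧ ∃ C : Set κ.ord.ToType,
        IsClub C ∧ ∀ a ∈ C, (∀ j ∈ J, a ∉ S j) → a ∈ X}
      univ_sets := ⟨∅, by simpa using hreg.pos, univ, IsClub.univ, fun _ _ _ => mem_univ _⟩
      sets_of_superset := by
        rintro X Y ⟨J, hJ, C, hC, h⟩ hXY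
        exact ⟨J, hJ, C, hC, fun a haC haJ => hXY (h a haC haJ)⟩
      inter_sets := by
        rintro X Y ⟨J, hJ, C, hC, h⟩ ⟨J', hJ', C', hC', h'⟩
        refine ⟨J ∪ J', ?_, C ∩ C', hC.inter hα.ne' hC', ?_⟩
        · exact (mk_union_le J J').trans_lt (add_lt_of_lt hreg.aleph0_le hJ hJ')
        · intro a haC haJ
          exact ⟨h a haC.1 fun j hj => haJ j (Or.inl hj), h' a haC.2 fun j hj => haJ j (Or.inr hj)⟩ }
  have hF : ∀ X : Set κ.ord.ToType, X ∈ F ↔ ∃ J : Set (Order.succ κ).ord.ToType, #J < κ ∧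
      ∃ C : Set κ.ord.ToType, IsClub C ∧ ∀ a ∈ C, (∀ j ∈ J, a ∉ S j) → a ∈ X := fun X => Iff.rfl
  refine ⟨F, ?_, ⟨?_⟩, ?_, ?_⟩
  · -- properness
    rw [← Filter.empty_mem_iff_bot.not.trans Filter.neBot_iff.symm]
    rintro ⟨J, hJ, C, hC, h⟩
    obtain ⟨i, hi⟩ := hexists J hJ
    obtain ⟨a, haC, _, haJ⟩ := key J hJ i hi C hC
    exact h a haC haJ
  · -- completeness
    intro 𝒮 h𝒮 hmem
    have hmem' : ∀ s : 𝒮, (s : Set κ.ord.ToType) ∈ F := fun s => hmem s s.2
    simp only [hF] at hmem'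
    choose J hJ C hC h using hmem'
    refine (hF _).2 ⟨⋃ s, J s, ?_, ⋂ s, C s, ?_, ?_⟩
    · exact (card_iUnion_lt_iff_forall_of_isRegular hreg h𝒮).2 hJ
    · apply IsClub.iInter hα.ne'
      · simp only [Cardinal.lift_id]
        rw [hcofα]; exact h𝒮
      · exact hC
    · intro a haC haJ s hs
      exact h ⟨s, hs⟩ a (mem_iInter.1 haC _) fun j hj => haJ j (mem_iUnion.2 ⟨_, hj⟩)
  · -- clubs
    intro C hC
    exact ⟨∅, by simpa using hreg.pos, C, hC, fun a ha _ => ha⟩
  · -- the Galvin property fails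
    intro hG
    obtain ⟨I, hI, J, hJ, C, hC, h⟩ := hG (fun i => (S i)ᶜ) fun i =>
      ⟨{i}, by rw [mk_singleton]; exact one_lt_aleph0.trans hunc, univ, IsClub.univ,
        fun a _ ha => ha i rfl⟩
    obtain ⟨i, hiI, hiJ⟩ : ∃ i ∈ I, i ∉ J := by
      by_contra hcon
      push Not at hcon
      exact absurd (mk_le_mk_of_subset (s := I) (t := J) hcon) (by rw [hI]; exact not_le.2 hJ)
    obtain ⟨a, haC, hai, haJ⟩ := key J hJ i hiJ C hC
    exact (mem_iInter₂.1 (h a haC haJ) i hiI) hai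

end Pool.Agent.Results.MP_52157e_lc.NonGalvinFilter
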